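import Mathlib
import Pool.Agent.H488R3.UC.Main2

set_option autoImplicit false

namespace Pool.Agent.Results.MP_be7f84_co.SmallCosize

open Finset
open Pool.Agent.H488R3.UC

lemma card_subtype_filter {α : Type*} [DecidableEq α] (G : Finset α) (p : α → Prop)
    [DecidablePred p] : (univ.filter (fun k : {g // g ∈ G} => p k.1)).card
      = (G.filter p).card := by
  rw [card_filter, card_filter]
  exact sum_coe_sort G (fun g => if p g then 1 else 0)

/-- The families `G` of subsets of `Fin d` with `m(G) = m > 0` and `σ(G) = s > 0` all of whose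
nonempty members omit at most `t` points: the uniform cover inequality for `G` is stable with
`|S Δ B| ≤ 12 t (m/s) ε |S|`. Every family satisfies the hypothesis on `t` with `t = d - 1`. -/
theorem result (d : ℕ) (hd : 2 ≤ d) (G : Finset (Finset (Fin d))) (m s t : ℕ)
    (hm : IsLeast (Set.range fun i : Fin d => (G.filter (fun g => i ∈ g)).card) m)
    (hs : IsLeast {c : ℕ | ∃ i j : Fin d, i ≠ j ∧
      c = (G.filter (fun g => i ∈ g ∧ j ∉ g)).card} s)
    (hm0 : 0 < m) (hs0 : 0 < s)
    (ht : ∀ g ∈ G, g.Nonempty → d ≤ g.card + t)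
    (ε : ℝ) (hε : 0 ≤ ε) (S : Finset (Fin d → ℤ))
    (hS : (1 - ε) * (∏ g ∈ G,
        ((S.image (fun (x : Fin d → ℤ) (i : {i // i ∈ g}) => x i.1)).card : ℝ)) ^ ((1 : ℝ) / m)
      ≤ S.card) :
    ∃ B : Fin d → Finset ℤ,
      ((symmDiff S (Fintype.piFinset B)).card : ℝ) ≤ 12 * t * ((m : ℝ) / s) * ε * S.card := by
  classical
  have hsdeg : ∀ i j : Fin d, i ≠ j → s ≤ (G.filter (fun g => i ∈ g ∧ j ∉ g)).card :=
    fun i j hij => hs.2 ⟨i, j, hij, rfl⟩
  have hmdeg : ∀ i : Fin d, m ≤ (G.filter (fun g => i ∈ g)).card := fun i => hm.2 ⟨i, rfl⟩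
  have hex : ∀ i : Fin d, ∃ j : Fin d, i ≠ j := by
    intro i
    have : Nontrivial (Fin d) := Fin.nontrivial_iff_two_le.mpr hd
    obtain ⟨j, hj⟩ := exists_ne i
    exact ⟨j, hj.symm⟩
  -- `s ≤ m`
  have hsm : s ≤ m := by
    obtain ⟨i, hi⟩ := hm.1
    obtain ⟨j, hij⟩ := hex i
    rw [← hi]
    refine (hsdeg i j hij).trans (card_le_card ?_)
    intro g hg
    rw [mem_filter] at hg ⊢
    exact ⟨hg.1, hg.2.1⟩
  -- `1 ≤ t`
  have ht1 : 1 ≤ t := by
    obtain ⟨j, hij⟩ := hex ⟨0, by omega⟩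
    have h1 := hsdeg _ _ hij
    obtain ⟨g, hg⟩ := card_pos.mp (lt_of_lt_of_le hs0 h1)
    rw [mem_filter] at hg
    have h2 := ht g hg.1 ⟨_, hg.2.1⟩
    have h3 : g.card < d := by
      have := card_lt_univ_of_notMem hg.2.2
      simpa using this
    omega
  have hmR : (0 : ℝ) < m := by exact_mod_cast hm0
  have hsR : (0 : ℝ) < s := by exact_mod_cast hs0
  have htR : (1 : ℝ) ≤ t := by exact_mod_cast ht1
  have hρ : (1 : ℝ) ≤ (m : ℝ) / s := by
    rw [le_div_iff₀ hsR, one_mul]; exact_mod_cast hsm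
  have : Nonempty (Fin d) := ⟨⟨0, by omega⟩⟩
  rcases S.eq_empty_or_nonempty with hSe | hSne
  · refine ⟨fun _ => ∅, ?_⟩
    rw [Fintype.piFinset_empty, ← bot_eq_empty, symmDiff_bot, hSe]
    simp
  have hN0 : (0 : ℝ) < S.card := by exact_mod_cast card_pos.mpr hSne
  rcases le_or_gt (1 / 2) ε with hbig | hsmall
  · refine ⟨fun _ => ∅, ?_⟩
    rw [Fintype.piFinset_empty, ← bot_eq_empty, symmDiff_bot]
    have h1 : (1 : ℝ) ≤ t * ((m : ℝ) / s) := by nlinarith
    have h2 : (1 : ℝ) ≤ 12 * t * ((m : ℝ) / s) * ε := by nlinarith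
    calc (S.card : ℝ) = 1 * S.card := (one_mul _).symm
      _ ≤ 12 * t * ((m : ℝ) / s) * ε * S.card := mul_le_mul_of_nonneg_right h2 hN0.le
  -- the main case
  have hpos : ∀ g ∈ G, (0 : ℝ) < (proj g S).card := by
    intro g _
    exact_mod_cast card_pos.mpr (hSne.image _)
  have hprod : (0 : ℝ) < ∏ g ∈ G, ((proj g S).card : ℝ) := prod_pos hpos
  have h1e : 0 < 1 - ε := by linarith
  have hlog : Real.log (1 - ε) + 1 / m * ∑ g ∈ G, Real.log (proj g S).card
      ≤ Real.log S.card := by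
    have h1 := Real.log_le_log (mul_pos h1e (Real.rpow_pos_of_pos hprod _)) hS
    rw [Real.log_mul h1e.ne' (Real.rpow_pos_of_pos hprod _).ne'] at h1
    have h2 : Real.log ((∏ g ∈ G, ((proj g S).card : ℝ)) ^ ((1 : ℝ) / m))
        = 1 / m * ∑ g ∈ G, Real.log (proj g S).card := by
      rw [Real.log_rpow hprod, Real.log_prod (fun g hg => (hpos g hg).ne')]
    rw [← h2]
    exact h1
  have hlog2 : -(2 * ε) ≤ Real.log (1 - ε) := by
    have h1 := Real.one_sub_inv_le_log_of_pos h1e
    have h2 : -(2 * ε) ≤ 1 - (1 - ε)⁻¹ := by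
      rw [le_sub_iff_add_le, ← sub_nonneg]
      have : 1 - (-(2 * ε) + (1 - ε)⁻¹) = ε * (1 - 2 * ε) / (1 - ε) := by
        field_simp
        ring
      rw [this]
      apply div_nonneg _ h1e.le
      apply mul_nonneg hε
      linarith
    linarith
  have hD : ∑ g ∈ G, Real.log (proj g S).card - m * Real.log S.card ≤ 2 * m * ε := by
    have h1 : (1 : ℝ) / m * ∑ g ∈ G, Real.log (proj g S).card ≤ Real.log S.card + 2 * ε := by
      linarith
    have h2 := mul_le_mul_of_nonneg_left h1 hmR.le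
    have h3 : (m : ℝ) * (1 / m * ∑ g ∈ G, Real.log (proj g S).card)
        = ∑ g ∈ G, Real.log (proj g S).card := by field_simp
    rw [h3] at h2
    linarith
  have huniv : hN S univ = S.card * Real.log S.card := by
    have h1 : ∀ x ∈ S, Real.log (fc univ S x) = 0 := by
      intro x hx
      have : fc univ S x = 1 := by
        unfold fc
        rw [card_eq_one]
        refine ⟨x, ?_⟩
        ext y
        rw [mem_filter, mem_singleton]
        constructor
        · rintro ⟨_, h⟩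
          funext i
          exact (h i (mem_univ i)).symm
        · rintro rfl
          exact ⟨hx, fun _ _ => rfl⟩
      rw [this]; simp
    unfold hN
    rw [sum_congr rfl h1, sum_const_zero, sub_zero]
  have hpoly := poly (hN S) (hN_empty S) (fun A B h => hN_mono S h)
    (fun A B => hN_submod S A B) (fun k : {g // g ∈ G} => k.1) m s t
    (fun i => by rw [card_subtype_filter G (fun g => i ∈ g)]; exact hmdeg i)
    (fun i j hij => by
      rw [card_subtype_filter G (fun g => i ∈ g ∧ j ∉ g)]; exact hsdeg i j hij)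
    (fun k hk => by
      have h1 := ht k.1 k.2 hk
      rw [card_sdiff_of_subset (subset_univ _), card_univ, Fintype.card_fin]
      omega)
  rw [DT_eq] at hpoly
  have hsum : ∑ k : {g // g ∈ G}, hN S k.1 = ∑ g ∈ G, hN S g := sum_coe_sort G (hN S)
  rw [hsum, huniv] at hpoly
  have hle : ∑ g ∈ G, hN S g ≤ S.card * ∑ g ∈ G, Real.log (proj g S).card := by
    rw [mul_sum]
    exact sum_le_sum (fun g _ => hN_le g S hSne)
  have hfin : ∑ g ∈ G, hN S g - m * (S.card * Real.log S.card) ≤ 2 * m * ε * S.card := by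
    have h1 := mul_le_mul_of_nonneg_left hD hN0.le
    linarith
  obtain ⟨B, hB⟩ := main2 d S hSne
  refine ⟨B, hB.trans ?_⟩
  have h2 : (s : ℝ) * DT S ≤ t * (2 * m * ε * S.card) :=
    hpoly.trans (mul_le_mul_of_nonneg_left hfin (by linarith))
  have h3 : DT S ≤ t * (2 * m * ε * S.card) / s := by
    rw [le_div_iff₀ hsR]; linarith
  calc 6 * DT S ≤ 6 * (t * (2 * m * ε * S.card) / s) := by linarith
    _ = 12 * t * ((m : ℝ) / s) * ε * S.card := by ring

end Pool.Agent.Results.MP_be7f84_co.SmallCosize
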